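import Pool.Agent.Lib_MP_5e6479_ins.Core

/-!
# MP_5e6479_an: admissible closed sets on which only constants do both

For `a > 0` let `comb a` be the closed left half-plane together with the lines
`Im z = (k + 1/2) a`, `k` an integer.  The transcendental entire function
`exp (exp (π z / a))` is bounded by `e` on `comb a`, the transcendental entire function `exp z` has
modulus `> 1` off `comb a`, but every entire function (polynomials included) which is bounded on
`comb a` and bounded away from `0` off `comb a` is constant.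
-/

set_option autoImplicit false

namespace Pool.Agent.Results.MP_5e6479_an.OnlyConstants

open Pool.Agent.Lib_MP_5e6479_ins

/-- entire and not a polynomial -/
def TranscendentalEntire (f : ℂ → ℂ) : Prop :=
  Differentiable ℂ f ∧ ¬ ∃ p : Polynomial ℂ, ∀ z, f z = p.eval z

/-- the closed left half-plane together with the lines `Im z = (k + 1/2) a`, `k` an integer -/
def comb (a : ℝ) : Set ℂ := {z | z.re ≤ 0 ∨ ∃ k : ℤ, z.im = (k + 1 / 2) * a}

theorem mem_comb {a : ℝ} (ha : 0 < a) (z : ℂ) :
    z ∈ comb a ↔ z.re ≤ 0 ∨ Real.cos (Real.pi / a * z.im) = 0 := by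
  have hp := Real.pi_pos
  unfold comb
  rw [Set.mem_ofPred_eq, Real.cos_eq_zero_iff]
  apply or_congr Iff.rfl
  constructor
  · rintro ⟨k, hk⟩
    refine ⟨k, ?_⟩
    rw [hk]
    field_simp
  · rintro ⟨k, hk⟩
    refine ⟨k, ?_⟩
    field_simp at hk
    field_simp
    linarith

theorem scale_mem {a : ℝ} (ha : 0 < a) (w : ℂ) :
    ((a / Real.pi : ℝ) : ℂ) * w ∈ comb a ↔ w ∈ {z : ℂ | z.re ≤ 0 ∨ Real.cos z.im = 0} := by
  have hp := Real.pi_pos
  rw [mem_comb ha, Set.mem_ofPred_eq, Complex.re_ofReal_mul, Complex.im_ofReal_mul]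
  have h1 : Real.pi / a * (a / Real.pi * w.im) = w.im := by field_simp
  rw [h1]
  have h2 : 0 < a / Real.pi := by positivity
  constructor
  · rintro (h | h)
    · left
      by_contra h3
      have := mul_pos h2 (not_le.1 h3)
      linarith
    · exact Or.inr h
  · rintro (h | h)
    · exact Or.inl (mul_nonpos_of_nonneg_of_nonpos h2.le h)
    · exact Or.inr h

theorem expexp_scaled_not_poly {a : ℝ} (ha : 0 < a) :
    ¬ ∃ p : Polynomial ℂ, ∀ z, Complex.exp (Complex.exp ((Real.pi / a : ℝ) * z)) = p.eval z := by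
  rintro ⟨p, hp⟩
  apply expexp_not_poly
  refine ⟨p.comp (Polynomial.C ((a / Real.pi : ℝ) : ℂ) * Polynomial.X), fun z => ?_⟩
  rw [Polynomial.eval_comp, Polynomial.eval_mul, Polynomial.eval_C, Polynomial.eval_X, ← hp,
    ← mul_assoc, ← Complex.ofReal_mul]
  have hpi := Real.pi_pos
  have : Real.pi / a * (a / Real.pi) = 1 := by field_simp
  rw [this, Complex.ofReal_one, one_mul]

/-- **Result.**  For every `a > 0` the set `comb a` is closed, the transcendental entire function
`exp (exp (π z / a))` is bounded by `e` on it, the transcendental entire function `exp z` has modulus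
`> 1` off it, and every entire function which is bounded on `comb a` and bounded away from `0` off
`comb a` is constant. -/
theorem result (a : ℝ) (ha : 0 < a) :
    IsClosed (comb a) ∧
    (TranscendentalEntire (fun z => Complex.exp (Complex.exp ((Real.pi / a : ℝ) * z))) ∧
      ∀ z ∈ comb a, ‖Complex.exp (Complex.exp ((Real.pi / a : ℝ) * z))‖ ≤ Real.exp 1) ∧
    (TranscendentalEntire Complex.exp ∧ ∀ z ∉ comb a, 1 < ‖Complex.exp z‖) ∧
    ∀ h : ℂ → ℂ, Differentiable ℂ h → (∃ M : ℝ, ∀ z ∈ comb a, ‖h z‖ ≤ M) →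
      (∃ c : ℝ, 0 < c ∧ ∀ z ∉ comb a, c ≤ ‖h z‖) → ∃ w : ℂ, ∀ z, h z = w := by
  have hp := Real.pi_pos
  refine ⟨?_, ⟨⟨by fun_prop, expexp_scaled_not_poly ha⟩, ?_⟩, ⟨⟨Complex.differentiable_exp,
    exp_not_poly⟩, ?_⟩, ?_⟩
  · have h1 : comb a = {z : ℂ | z.re ≤ 0} ∪ {z : ℂ | Real.cos (Real.pi / a * z.im) = 0} := by
      ext z
      rw [mem_comb ha]
      rfl
    rw [h1]
    apply IsClosed.union
    · exact isClosed_le Complex.continuous_re continuous_const
    · exact isClosed_eq (Real.continuous_cos.comp (continuous_const.mul Complex.continuous_im))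
        continuous_const
  · intro z hz
    rw [mem_comb ha] at hz
    rw [Complex.norm_exp, Complex.exp_re, Complex.re_ofReal_mul, Complex.im_ofReal_mul]
    apply Real.exp_le_exp.mpr
    rcases hz with hz | hz
    · have h1 : Real.exp (Real.pi / a * z.re) ≤ 1 :=
        Real.exp_le_one_iff.mpr (mul_nonpos_of_nonneg_of_nonpos (by positivity) hz)
      have h2 : 0 ≤ Real.exp (Real.pi / a * z.re) := (Real.exp_pos _).le
      have h3 : Real.cos (Real.pi / a * z.im) ≤ 1 := Real.cos_le_one _
      nlinarith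
    · rw [hz, mul_zero]
      exact zero_le_one
  · intro z hz
    rw [mem_comb ha, not_or, not_le] at hz
    rw [Complex.norm_exp]
    exact Real.one_lt_exp_iff.2 hz.1
  · rintro h hd ⟨M, hM⟩ ⟨c, hc, hlow⟩
    have hd' : Differentiable ℂ (fun w => h (((a / Real.pi : ℝ) : ℂ) * w)) := by fun_prop
    have hb := bound_all hd' (M := M) (δ := c) (fun w hw => hM _ ((scale_mem ha w).2 hw)) hc
      (fun w hw => hlow _ (fun h1 => hw ((scale_mem ha w).1 h1)))
    have hb' : ∀ z, ‖h z‖ ≤ M := by
      intro z
      have h1 := hb (((Real.pi / a : ℝ) : ℂ) * z)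
      rw [← mul_assoc, ← Complex.ofReal_mul] at h1
      have h2 : a / Real.pi * (Real.pi / a) = 1 := by field_simp
      rwa [h2, Complex.ofReal_one, one_mul] at h1
    exact hd.exists_const_forall_eq_of_bounded (by
      rw [isBounded_iff_forall_norm_le]
      refine ⟨M, ?_⟩
      rintro _ ⟨z, rfl⟩
      exact hb' z)

end Pool.Agent.Results.MP_5e6479_an.OnlyConstants
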